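import Pool.Agent.Run7.h567.GO.Iface

/-!
# Project GO: piece LAM
-/

set_option autoImplicit false

namespace Run7.h590.GO

open Matrix Polynomial Run7.h567.GO

section

variable {Γ : Type} [Group Γ] {E : Type} [Field E] {m : ℕ}

/-- right translation of functions -/
def rt (E : Type) [Field E] (x : Γ) : (Γ → E) →ₐ[E] (Γ → E) where
  toFun s g := s (g * x)
  map_one' := rfl
  map_mul' _ _ := rfl
  map_zero' := rfl
  map_add' _ _ := rfl
  commutes' _ := rfl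

/-- inversion of the argument -/
def iv (Γ : Type) [Group Γ] (E : Type) [Field E] : (Γ → E) →ₐ[E] (Γ → E) where
  toFun s g := s g⁻¹
  map_one' := rfl
  map_mul' _ _ := rfl
  map_zero' := rfl
  map_add' _ _ := rfl
  commutes' _ := rfl

theorem ent_mem (σ : MRep Γ E m) (i j : Fin m) : ent σ i j ∈ coefAlg σ :=
  Algebra.subset_adjoin (Or.inl ⟨(i, j), rfl⟩)

theorem ent'_mem (σ : MRep Γ E m) (i j : Fin m) : ent' σ i j ∈ coefAlg σ :=
  Algebra.subset_adjoin (Or.inr ⟨(i, j), rfl⟩)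

theorem rt_ent (σ : MRep Γ E m) (x : Γ) (i j : Fin m) :
    rt E x (ent σ i j) = ∑ k, (σ x k j) • ent σ i k := by
  funext g
  show σ (g * x) i j = _
  rw [map_mul, Matrix.mul_apply, Finset.sum_apply]
  exact Finset.sum_congr rfl fun k _ => mul_comm _ _

theorem rt_ent' (σ : MRep Γ E m) (x : Γ) (i j : Fin m) :
    rt E x (ent' σ i j) = ∑ k, (σ x⁻¹ i k) • ent' σ k j := by
  funext g
  show σ (g * x)⁻¹ i j = _
  rw [_root_.mul_inv_rev, map_mul, Matrix.mul_apply, Finset.sum_apply]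
  exact Finset.sum_congr rfl fun k _ => rfl

theorem le_comap_of (σ : MRep Γ E m) (θ : (Γ → E) →ₐ[E] (Γ → E))
    (h1 : ∀ i j, θ (ent σ i j) ∈ coefAlg σ) (h2 : ∀ i j, θ (ent' σ i j) ∈ coefAlg σ) :
    ∀ s ∈ coefAlg σ, θ s ∈ coefAlg σ := by
  have h : coefAlg σ ≤ (coefAlg σ).comap θ := by
    refine Algebra.adjoin_le ?_
    rintro s (⟨p, rfl⟩ | ⟨p, rfl⟩)
    · exact h1 _ _
    · exact h2 _ _
  exact fun s hs => h hs

theorem rt_mem (σ : MRep Γ E m) (x : Γ) : ∀ s ∈ coefAlg σ, rt E x s ∈ coefAlg σ := by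
  apply le_comap_of
  · intro i j
    rw [rt_ent]
    exact Subalgebra.sum_mem _ fun k _ => Subalgebra.smul_mem _ (ent_mem σ i k) _
  · intro i j
    rw [rt_ent']
    exact Subalgebra.sum_mem _ fun k _ => Subalgebra.smul_mem _ (ent'_mem σ k j) _

theorem iv_mem (σ : MRep Γ E m) : ∀ s ∈ coefAlg σ, iv Γ E s ∈ coefAlg σ := by
  apply le_comap_of
  · intro i j
    exact ent'_mem σ i j
  · intro i j
    have : iv Γ E (ent' σ i j) = ent σ i j := by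
      funext g
      show σ g⁻¹⁻¹ i j = σ g i j
      rw [inv_inv]
    rw [this]
    exact ent_mem σ i j

/-- right translation on the coefficient algebra -/
def rr (σ : MRep Γ E m) (x : Γ) : coefAlg σ →ₐ[E] coefAlg σ :=
  ((rt E x).comp (coefAlg σ).val).codRestrict (coefAlg σ) fun s => rt_mem σ x s.1 s.2

/-- inversion on the coefficient algebra -/
def vv (σ : MRep Γ E m) : coefAlg σ →ₐ[E] coefAlg σ :=
  ((iv Γ E).comp (coefAlg σ).val).codRestrict (coefAlg σ) fun s => iv_mem σ s.1 s.2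

/-- translation by a point, with values in the functions -/
def L0 (σ : MRep Γ E m) (φ : coefAlg σ →ₐ[E] E) : coefAlg σ →ₐ[E] (Γ → E) :=
  Pi.algHom E _ fun x => φ.comp (rr σ x)

theorem L0_apply (σ : MRep Γ E m) (φ : coefAlg σ →ₐ[E] E) (s : coefAlg σ) (x : Γ) :
    L0 σ φ s x = φ (rr σ x s) := rfl

theorem rr_ent (σ : MRep Γ E m) (x : Γ) (i j : Fin m) :
    rr σ x ⟨ent σ i j, ent_mem σ i j⟩ = ∑ k, (σ x k j) • ⟨ent σ i k, ent_mem σ i k⟩ := by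
  apply Subtype.ext
  have h : (∑ k, (σ x k j) • (⟨ent σ i k, ent_mem σ i k⟩ : coefAlg σ) : coefAlg σ).1 =
      ∑ k, (σ x k j) • ent σ i k := by
    rw [AddSubmonoidClass.coe_finset_sum]
    rfl
  rw [h, ← rt_ent]
  rfl

theorem rr_ent' (σ : MRep Γ E m) (x : Γ) (i j : Fin m) :
    rr σ x ⟨ent' σ i j, ent'_mem σ i j⟩ = ∑ k, (σ x⁻¹ i k) • ⟨ent' σ k j, ent'_mem σ k j⟩ := by
  apply Subtype.ext
  have h : (∑ k, (σ x⁻¹ i k) • (⟨ent' σ k j, ent'_mem σ k j⟩ : coefAlg σ) : coefAlg σ).1 =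
      ∑ k, (σ x⁻¹ i k) • ent' σ k j := by
    rw [AddSubmonoidClass.coe_finset_sum]
    rfl
  rw [h, ← rt_ent']
  rfl

theorem L0_ent (σ : MRep Γ E m) (φ : coefAlg σ →ₐ[E] E) (i j : Fin m) :
    L0 σ φ ⟨ent σ i j, ent_mem σ i j⟩ =
      ∑ k, φ ⟨ent σ i k, ent_mem σ i k⟩ • ent σ k j := by
  funext x
  rw [L0_apply, rr_ent, map_sum, Finset.sum_apply]
  refine Finset.sum_congr rfl fun k _ => ?_
  rw [map_smul]
  exact mul_comm _ _

theorem L0_ent' (σ : MRep Γ E m) (φ : coefAlg σ →ₐ[E] E) (i j : Fin m) :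
    L0 σ φ ⟨ent' σ i j, ent'_mem σ i j⟩ =
      ∑ k, φ ⟨ent' σ k j, ent'_mem σ k j⟩ • ent' σ i k := by
  funext x
  rw [L0_apply, rr_ent', map_sum, Finset.sum_apply]
  refine Finset.sum_congr rfl fun k _ => ?_
  rw [map_smul]
  exact mul_comm _ _

theorem L0_mem (σ : MRep Γ E m) (φ : coefAlg σ →ₐ[E] E) (s : coefAlg σ) :
    L0 σ φ s ∈ coefAlg σ := by
  obtain ⟨s, hs⟩ := s
  refine Algebra.adjoin_induction (p := fun s hs => L0 σ φ ⟨s, hs⟩ ∈ coefAlg σ)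
    ?_ ?_ ?_ ?_ hs
  · rintro s (⟨p, rfl⟩ | ⟨p, rfl⟩)
    · show L0 σ φ ⟨ent σ p.1 p.2, ent_mem σ _ _⟩ ∈ _
      rw [L0_ent]
      exact Subalgebra.sum_mem _ fun k _ => Subalgebra.smul_mem _ (ent_mem σ _ _) _
    · show L0 σ φ ⟨ent' σ p.1 p.2, ent'_mem σ _ _⟩ ∈ _
      rw [L0_ent']
      exact Subalgebra.sum_mem _ fun k _ => Subalgebra.smul_mem _ (ent'_mem σ _ _) _
  · intro r
    show L0 σ φ (algebraMap E (coefAlg σ) r) ∈ _
    rw [AlgHom.commutes]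
    exact Subalgebra.algebraMap_mem _ _
  · intro a b ha hb h1 h2
    show L0 σ φ (⟨a, ha⟩ + ⟨b, hb⟩) ∈ _
    rw [map_add]
    exact Subalgebra.add_mem _ h1 h2
  · intro a b ha hb h1 h2
    show L0 σ φ (⟨a, ha⟩ * ⟨b, hb⟩) ∈ _
    rw [map_mul]
    exact Subalgebra.mul_mem _ h1 h2

/-- translation by a point -/
def L1 (σ : MRep Γ E m) (φ : coefAlg σ →ₐ[E] E) : coefAlg σ →ₐ[E] coefAlg σ :=
  (L0 σ φ).codRestrict (coefAlg σ) (L0_mem σ φ)

theorem L1_ent (σ : MRep Γ E m) (φ : coefAlg σ →ₐ[E] E) (i j : Fin m) :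
    L1 σ φ ⟨ent σ i j, ent_mem σ i j⟩ =
      ∑ k, φ ⟨ent σ i k, ent_mem σ i k⟩ • ⟨ent σ k j, ent_mem σ k j⟩ := by
  apply Subtype.ext
  rw [AddSubmonoidClass.coe_finset_sum]
  exact L0_ent σ φ i j

theorem L1_ent' (σ : MRep Γ E m) (φ : coefAlg σ →ₐ[E] E) (i j : Fin m) :
    L1 σ φ ⟨ent' σ i j, ent'_mem σ i j⟩ =
      ∑ k, φ ⟨ent' σ k j, ent'_mem σ k j⟩ • ⟨ent' σ i k, ent'_mem σ i k⟩ := by
  apply Subtype.ext
  rw [AddSubmonoidClass.coe_finset_sum]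
  exact L0_ent' σ φ i j

theorem ent_mul (σ : MRep Γ E m) (i j : Fin m) :
    ∑ k, (⟨ent σ i k, ent_mem σ i k⟩ : coefAlg σ) * ⟨ent' σ k j, ent'_mem σ k j⟩ =
      algebraMap E (coefAlg σ) ((1 : Matrix (Fin m) (Fin m) E) i j) := by
  apply Subtype.ext
  rw [AddSubmonoidClass.coe_finset_sum]
  funext g
  rw [Finset.sum_apply]
  show ∑ k, σ g i k * σ g⁻¹ k j = (1 : Matrix (Fin m) (Fin m) E) i j
  rw [← Matrix.mul_apply, ← map_mul, mul_inv_cancel, map_one]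

theorem ent'_mul (σ : MRep Γ E m) (i j : Fin m) :
    ∑ k, (⟨ent' σ i k, ent'_mem σ i k⟩ : coefAlg σ) * ⟨ent σ k j, ent_mem σ k j⟩ =
      algebraMap E (coefAlg σ) ((1 : Matrix (Fin m) (Fin m) E) i j) := by
  apply Subtype.ext
  rw [AddSubmonoidClass.coe_finset_sum]
  funext g
  rw [Finset.sum_apply]
  show ∑ k, σ g⁻¹ i k * σ g k j = (1 : Matrix (Fin m) (Fin m) E) i j
  rw [← Matrix.mul_apply, ← map_mul, inv_mul_cancel, map_one]

theorem vv_ent (σ : MRep Γ E m) (i j : Fin m) :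
    vv σ ⟨ent σ i j, ent_mem σ i j⟩ = ⟨ent' σ i j, ent'_mem σ i j⟩ := rfl

theorem vv_ent' (σ : MRep Γ E m) (i j : Fin m) :
    vv σ ⟨ent' σ i j, ent'_mem σ i j⟩ = ⟨ent σ i j, ent_mem σ i j⟩ := by
  apply Subtype.ext
  funext g
  show σ g⁻¹⁻¹ i j = σ g i j
  rw [inv_inv]

theorem phi_mul (σ : MRep Γ E m) (φ : coefAlg σ →ₐ[E] E) (i j : Fin m) :
    ∑ k, φ ⟨ent σ i k, ent_mem σ i k⟩ * φ ⟨ent' σ k j, ent'_mem σ k j⟩ =
      (1 : Matrix (Fin m) (Fin m) E) i j := by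
  have h := congrArg φ (ent_mul σ i j)
  rw [map_sum, AlgHom.commutes] at h
  simp only [map_mul] at h
  exact h

theorem phi_mul' (σ : MRep Γ E m) (φ : coefAlg σ →ₐ[E] E) (i j : Fin m) :
    ∑ k, φ ⟨ent' σ i k, ent'_mem σ i k⟩ * φ ⟨ent σ k j, ent_mem σ k j⟩ =
      (1 : Matrix (Fin m) (Fin m) E) i j := by
  have h := congrArg φ (ent'_mul σ i j)
  rw [map_sum, AlgHom.commutes] at h
  simp only [map_mul] at h
  exact h

theorem L1_L1 (σ : MRep Γ E m) (φ : coefAlg σ →ₐ[E] E) :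
    (L1 σ (φ.comp (vv σ))).comp (L1 σ φ) = AlgHom.id E (coefAlg σ) := by
  refine AlgHom.adjoin_ext ?_
  rintro s (⟨⟨i, j⟩, rfl⟩ | ⟨⟨i, j⟩, rfl⟩)
  · show L1 σ (φ.comp (vv σ)) (L1 σ φ ⟨ent σ i j, ent_mem σ i j⟩) = ⟨ent σ i j, ent_mem σ i j⟩
    rw [L1_ent, map_sum]
    simp only [map_smul, L1_ent, AlgHom.comp_apply, vv_ent, Finset.smul_sum, smul_smul]
    rw [Finset.sum_comm]
    simp only [← Finset.sum_smul, phi_mul]
    rw [Finset.sum_eq_single i]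
    · rw [Matrix.one_apply_eq, one_smul]
    · intro b _ hb
      rw [Matrix.one_apply_ne (Ne.symm hb), zero_smul]
    · intro h
      exact absurd (Finset.mem_univ i) h
  · show L1 σ (φ.comp (vv σ)) (L1 σ φ ⟨ent' σ i j, ent'_mem σ i j⟩) =
      ⟨ent' σ i j, ent'_mem σ i j⟩
    rw [L1_ent', map_sum]
    simp only [map_smul, L1_ent', AlgHom.comp_apply, vv_ent', Finset.smul_sum, smul_smul]
    rw [Finset.sum_comm]
    have h : ∀ l : Fin m, ∑ k, φ ⟨ent' σ k j, ent'_mem σ k j⟩ * φ ⟨ent σ l k, ent_mem σ l k⟩ =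
        (1 : Matrix (Fin m) (Fin m) E) l j := by
      intro l
      rw [← phi_mul σ φ l j]
      exact Finset.sum_congr rfl fun k _ => mul_comm _ _
    simp only [← Finset.sum_smul, h]
    rw [Finset.sum_eq_single j]
    · rw [Matrix.one_apply_eq, one_smul]
    · intro b _ hb
      rw [Matrix.one_apply_ne hb, zero_smul]
    · intro h
      exact absurd (Finset.mem_univ j) h

end

theorem t_LAM : S_LAM := by
  intro Γ _ E _ m σ φ s hs
  have h1 : L1 σ φ s = 0 := by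
    apply Subtype.ext
    funext x
    show φ (rr σ x s) = 0
    exact hs x (rr σ x s) fun g => rfl
  have h2 := congrArg (fun θ => θ s) (L1_L1 σ φ)
  simp only [AlgHom.comp_apply, AlgHom.id_apply] at h2
  rw [← h2, h1, map_zero]

end Run7.h590.GO
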