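import Pool.Agent.Run7.h567.GO.Iface

/-!
# Project GO: piece RING
-/

set_option autoImplicit false

namespace Run7.h590.GO

open Matrix Polynomial Run7.h567.GO TensorProduct

/-- if two points which agree on `R` take the same value at `f` then `f ⊗ 1 - 1 ⊗ f` is nilpotent -/
theorem nilp (E : Type) [Field E] [IsAlgClosed E] (R A : Type) [CommRing R]
    [CommRing A] [Algebra E R] [Algebra E A] [Algebra R A] [IsScalarTower E R A]
    [Algebra.FiniteType E A] (f : A)
    (hf : ∀ φ ψ : A →ₐ[E] E, (∀ r : R, φ (algebraMap R A r) = ψ (algebraMap R A r)) → φ f = ψ f) :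
    IsNilpotent (f ⊗ₜ[R] (1 : A) - (1 : A) ⊗ₜ[R] f) := by
  have hRA : Algebra.FiniteType R A := Algebra.FiniteType.of_restrictScalars_finiteType E R A
  have hB1 : Algebra.FiniteType A (A ⊗[R] A) := Algebra.FiniteType.baseChange A
  have hB : Algebra.FiniteType E (A ⊗[R] A) := Algebra.FiniteType.trans (S := A) inferInstance hB1
  have hJ : IsJacobsonRing (A ⊗[R] A) := isJacobsonRing_of_finiteType (A := E)
  rw [← mem_nilradical]
  have h1 : (nilradical (A ⊗[R] A)).jacobson = nilradical (A ⊗[R] A) := by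
    exact isJacobsonRing_iff.1 hJ (nilradical (A ⊗[R] A)) (Ideal.radical_isRadical _)
  rw [← h1, Ideal.jacobson, Ideal.mem_sInf]
  rintro 𝔫 ⟨_, h𝔫⟩
  let _ := Ideal.Quotient.field 𝔫
  have hq : Algebra.FiniteType E ((A ⊗[R] A) ⧸ 𝔫) :=
    Algebra.FiniteType.of_surjective (Ideal.Quotient.mkₐ E 𝔫) Ideal.Quotient.mk_surjective
  have hfin : Module.Finite E ((A ⊗[R] A) ⧸ 𝔫) := finite_of_finite_type_of_isJacobsonRing _ _
  have hbij : Function.Bijective (algebraMap E ((A ⊗[R] A) ⧸ 𝔫)) :=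
    IsAlgClosed.algebraMap_bijective_of_isIntegral
  let e : E ≃ₐ[E] ((A ⊗[R] A) ⧸ 𝔫) := AlgEquiv.ofBijective (Algebra.ofId E _) hbij
  let θ : (A ⊗[R] A) →ₐ[E] E := (e.symm : _ →ₐ[E] E).comp (Ideal.Quotient.mkₐ E 𝔫)
  have hθ : ∀ z, θ z = 0 → z ∈ 𝔫 := by
    intro z hz
    have h2 : e.symm (Ideal.Quotient.mk 𝔫 z) = 0 := hz
    rw [map_eq_zero_iff _ e.symm.injective] at h2
    exact Ideal.Quotient.eq_zero_iff_mem.1 h2
  apply hθ
  let iL : A →ₐ[E] (A ⊗[R] A) := Algebra.TensorProduct.includeLeft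
  let iR : A →ₐ[E] (A ⊗[R] A) := (Algebra.TensorProduct.includeRight : A →ₐ[R] _).restrictScalars E
  have h3 := hf (θ.comp iL) (θ.comp iR) (by
    intro r
    show θ ((algebraMap R A r) ⊗ₜ[R] (1 : A)) = θ ((1 : A) ⊗ₜ[R] (algebraMap R A r))
    congr 1
    rw [Algebra.algebraMap_eq_smul_one, TensorProduct.smul_tmul])
  have h4 : θ (f ⊗ₜ[R] (1 : A)) = θ ((1 : A) ⊗ₜ[R] f) := h3
  rw [map_sub, h4, sub_self]

/-- all pairs of homomorphisms to a field take the same value -/
theorem eqv (R A : Type) [CommRing R] [CommRing A] [Algebra R A] (f : A)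
    (h : IsNilpotent (f ⊗ₜ[R] (1 : A) - (1 : A) ⊗ₜ[R] f)) (Ω : Type) [Field Ω] [Algebra R Ω]
    (φ ψ : A →ₐ[R] Ω) : φ f = ψ f := by
  have h1 := h.map (Algebra.TensorProduct.productMap φ ψ)
  rw [map_sub, Algebra.TensorProduct.productMap_apply_tmul,
    Algebra.TensorProduct.productMap_apply_tmul, map_one, map_one, mul_one, one_mul] at h1
  exact sub_eq_zero.1 (isNilpotent_iff_eq_zero.1 h1)

theorem isField_loc (R : Type) [CommRing R] [IsReduced R] (𝔭 : Ideal R) [𝔭.IsPrime]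
    (h𝔭 : 𝔭 ∈ minimalPrimes R) : IsField (Localization.AtPrime 𝔭) := by
  rw [IsLocalRing.isField_iff_maximalIdeal_eq, eq_bot_iff]
  intro z hz
  have h1 : z ∈ nilradical (Localization.AtPrime 𝔭) := by
    rw [nilradical_eq_sInf, Ideal.mem_sInf]
    intro J hJ
    obtain ⟨h₁, h₂⟩ := ((IsLocalization.AtPrime.orderIsoOfPrime _ 𝔭) ⟨J, hJ⟩).2
    have h3 : 𝔭 ≤ Ideal.comap (algebraMap R (Localization.AtPrime 𝔭)) J :=
      h𝔭.2 ⟨h₁, bot_le⟩ h₂
    rw [← Ideal.map_le_iff_le_comap, Localization.AtPrime.map_eq_maximalIdeal] at h3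
    exact h3 hz
  rw [nilradical_eq_zero] at h1
  exact h1

/-- over a field: `f` is constant modulo nilpotents -/
theorem over_field (F A : Type) [Field F] [CharZero F] [CommRing A] [Algebra F A]
    [Algebra.FiniteType F A] (f : A)
    (h : ∀ φ ψ : A →ₐ[F] AlgebraicClosure F, φ f = ψ f) :
    ∃ a : F, IsNilpotent (f - algebraMap F A a) := by
  rcases subsingleton_or_nontrivial A with hA | hA
  · exact ⟨0, ⟨1, Subsingleton.elim _ _⟩⟩
  have hJ : IsJacobsonRing A := isJacobsonRing_of_finiteType (A := F)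
  obtain ⟨𝔫₀, h𝔫₀⟩ := Ideal.exists_maximal A
  have key : ∀ 𝔫 : Ideal A, 𝔫.IsMaximal → ∃ φ : A →ₐ[F] AlgebraicClosure F,
      (∀ z, φ z = 0 → z ∈ 𝔫) ∧ ∃ a : F, φ f = algebraMap F (AlgebraicClosure F) a := by
    intro 𝔫 h𝔫
    let _ := Ideal.Quotient.field 𝔫
    have hq : Algebra.FiniteType F (A ⧸ 𝔫) :=
      Algebra.FiniteType.of_surjective (Ideal.Quotient.mkₐ F 𝔫) Ideal.Quotient.mk_surjective
    have hfin : Module.Finite F (A ⧸ 𝔫) := finite_of_finite_type_of_isJacobsonRing _ _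
    have halg : Algebra.IsAlgebraic F (A ⧸ 𝔫) := Algebra.IsAlgebraic.of_finite _ _
    let lf : (A ⧸ 𝔫) →ₐ[F] AlgebraicClosure F := IsAlgClosed.lift
    refine ⟨lf.comp (Ideal.Quotient.mkₐ F 𝔫), ?_, ?_⟩
    · intro z hz
      have h2 : lf (Ideal.Quotient.mk 𝔫 z) = 0 := hz
      have h3 : Ideal.Quotient.mk 𝔫 z = 0 := by
        apply lf.toRingHom.injective
        rw [map_zero]
        exact h2
      exact Ideal.Quotient.eq_zero_iff_mem.1 h3
    · set x : A ⧸ 𝔫 := Ideal.Quotient.mk 𝔫 f with hx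
      have hint : IsIntegral F x := Algebra.IsIntegral.isIntegral x
      have hr := Algebra.IsAlgebraic.range_eval_eq_rootSet_minpoly (F := F) (K := A ⧸ 𝔫)
        (AlgebraicClosure F) x
      have hsub : (minpoly F x).rootSet (AlgebraicClosure F) ⊆ {lf x} := by
        rw [← hr]
        rintro _ ⟨ψ, rfl⟩
        exact h (ψ.comp (Ideal.Quotient.mkₐ F 𝔫)) (lf.comp (Ideal.Quotient.mkₐ F 𝔫))
      have hcard := card_rootSet_eq_natDegree (K := AlgebraicClosure F)
        (minpoly.irreducible hint).separable (IsAlgClosed.splits _)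
      have hle : Fintype.card ((minpoly F x).rootSet (AlgebraicClosure F)) ≤ 1 := by
        rw [Fintype.card_le_one_iff]
        rintro ⟨a, ha⟩ ⟨b, hb⟩
        apply Subtype.ext
        show a = b
        rw [Set.mem_singleton_iff.1 (hsub ha), Set.mem_singleton_iff.1 (hsub hb)]
      have hdeg : (minpoly F x).natDegree = 1 := by
        have := minpoly.natDegree_pos hint
        omega
      rw [minpoly.natDegree_eq_one_iff] at hdeg
      obtain ⟨a, ha⟩ := hdeg
      refine ⟨a, ?_⟩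
      show lf x = _
      rw [← ha]
      exact lf.commutes a
  obtain ⟨φ₀, _, a, ha⟩ := key 𝔫₀ h𝔫₀
  refine ⟨a, ?_⟩
  rw [← mem_nilradical]
  have h1 : (nilradical A).jacobson = nilradical A :=
    isJacobsonRing_iff.1 hJ (nilradical A) (Ideal.radical_isRadical _)
  rw [← h1, Ideal.jacobson, Ideal.mem_sInf]
  rintro 𝔫 ⟨_, h𝔫⟩
  obtain ⟨φ, hφ, _⟩ := key 𝔫 h𝔫
  apply hφ
  rw [map_sub, h φ φ₀, ha, AlgHom.commutes, sub_self]

theorem t_RING : S_RING := by
  intro E _ _ _ R A _ _ _ _ _ _ _ _ _ _ hinj f hf 𝔭 h𝔭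
  have hprime : 𝔭.IsPrime := h𝔭.1.1
  have hnil := nilp E R A f hf
  have hF := isField_loc R 𝔭 h𝔭
  let _ : Field (Localization.AtPrime 𝔭) := hF.toField
  have hchar : CharZero (Localization.AtPrime 𝔭) :=
    charZero_of_injective_algebraMap (algebraMap E (Localization.AtPrime 𝔭)).injective
  have hRA : Algebra.FiniteType R A := Algebra.FiniteType.of_restrictScalars_finiteType E R A
  have hfin : Algebra.FiniteType (Localization.AtPrime 𝔭) ((Localization.AtPrime 𝔭) ⊗[R] A) :=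
    Algebra.FiniteType.baseChange _
  obtain ⟨a, ha⟩ := over_field (Localization.AtPrime 𝔭) ((Localization.AtPrime 𝔭) ⊗[R] A)
    ((1 : Localization.AtPrime 𝔭) ⊗ₜ[R] f) (by
      intro φ ψ
      exact eqv R A f hnil (AlgebraicClosure (Localization.AtPrime 𝔭))
        ((φ.restrictScalars R).comp Algebra.TensorProduct.includeRight)
        ((ψ.restrictScalars R).comp Algebra.TensorProduct.includeRight))
  obtain ⟨⟨r, s⟩, hrs⟩ := IsLocalization.surj 𝔭.primeCompl a
  -- `a * s = r`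
  have hrs' : a * algebraMap R (Localization.AtPrime 𝔭) s.1 =
    algebraMap R (Localization.AtPrime 𝔭) r := hrs
  set x : A := algebraMap R A s.1 * f - algebraMap R A r with hx
  have hx1 : (1 : Localization.AtPrime 𝔭) ⊗ₜ[R] x =
      algebraMap R ((Localization.AtPrime 𝔭) ⊗[R] A) s.1 *
        ((1 : Localization.AtPrime 𝔭) ⊗ₜ[R] f - algebraMap (Localization.AtPrime 𝔭)
          ((Localization.AtPrime 𝔭) ⊗[R] A) a) := by
    have e1 : algebraMap R ((Localization.AtPrime 𝔭) ⊗[R] A) s.1 =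
        (1 : Localization.AtPrime 𝔭) ⊗ₜ[R] (algebraMap R A s.1) := by
      rw [Algebra.algebraMap_eq_smul_one, Algebra.algebraMap_eq_smul_one,
        Algebra.TensorProduct.one_def, TensorProduct.tmul_smul]
    have e2 : algebraMap (Localization.AtPrime 𝔭) ((Localization.AtPrime 𝔭) ⊗[R] A) a =
        a ⊗ₜ[R] (1 : A) := rfl
    have e3 : (1 : Localization.AtPrime 𝔭) ⊗ₜ[R] (algebraMap R A s.1) * (a ⊗ₜ[R] (1 : A)) =
        (1 : Localization.AtPrime 𝔭) ⊗ₜ[R] (algebraMap R A r) := by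
      rw [Algebra.TensorProduct.tmul_mul_tmul, one_mul, mul_one,
        Algebra.algebraMap_eq_smul_one, Algebra.algebraMap_eq_smul_one, TensorProduct.tmul_smul,
        TensorProduct.tmul_smul, TensorProduct.smul_tmul', TensorProduct.smul_tmul']
      congr 1
      rw [Algebra.smul_def, Algebra.smul_def, mul_one, ← hrs', mul_comm]
    rw [e1, e2, mul_sub, e3, Algebra.TensorProduct.tmul_mul_tmul, one_mul, hx,
      TensorProduct.tmul_sub]
  have hnx : IsNilpotent ((1 : Localization.AtPrime 𝔭) ⊗ₜ[R] x) := by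
    rw [hx1]
    exact (Commute.all _ _).isNilpotent_mul_left ha
  obtain ⟨k, hk⟩ := hnx
  rw [Algebra.TensorProduct.tmul_pow, one_pow] at hk
  have hk2 : TensorProduct.mk R (Localization.AtPrime 𝔭) A 1 (x ^ k) = 0 := hk
  rw [IsLocalizedModule.eq_zero_iff 𝔭.primeCompl] at hk2
  obtain ⟨s', hs'⟩ := hk2
  have hs2 : algebraMap R A s'.1 * x ^ k = 0 := by
    rw [← Algebra.smul_def]
    exact hs'
  have hs3 : algebraMap R A s'.1 * x = 0 := by
    apply (IsNilpotent.eq_zero : IsNilpotent (algebraMap R A s'.1 * x) → _)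
    refine ⟨k + 1, ?_⟩
    rw [mul_pow, pow_succ x k, pow_succ]
    calc algebraMap R A s'.1 ^ k * algebraMap R A s'.1 * (x ^ k * x) =
        algebraMap R A s'.1 ^ k * (algebraMap R A s'.1 * x ^ k) * x := by ring
      _ = 0 := by rw [hs2, mul_zero, zero_mul]
  refine ⟨s'.1 * s.1, fun hmem => ?_, s'.1 * r, ?_⟩
  · rcases hprime.mem_or_mem hmem with h | h
    · exact s'.2 h
    · exact s.2 h
  · rw [hx, mul_sub, sub_eq_zero, ← mul_assoc, ← map_mul, ← map_mul] at hs3
    exact hs3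

end Run7.h590.GO
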